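import Mathlib
import Pool.Agent.W232.FC.Fin

/-!
Solutions of `a^m + b^n = c^k` with one small base, or one large exponent.

For every `ε > 0` there is `δ > 0` such that for all large `X` at most `X^ε` value triples
`(a^m, b^n, c^k)` with `a^m + b^n = c^k ≤ X`, `m, n, k ≥ 2`, have a base `a`, `b` or `c` which is at
most `X^δ`. The exponents are arbitrary and vary with the solution, and no coprimality is assumed. A
base whose exponent is at least `1 / δ` is at most `X^δ`, so the theorem covers all triples of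
exponents but finitely many (those with `m, n, k < 1 / δ`).
-/

namespace Pool.Agent.Results.MP_2738db_nt.SmallBaseSolutions

/-- the value triples `(a^m, b^n, c^k)`, `a^m + b^n = c^k ≤ X`, with positive bases, exponents at
least `2`, and at least one base at most `Y` -/
def SmallBase (X : ℕ) (Y : ℝ) : Set (ℕ × ℕ × ℕ) :=
  {t | ∃ a b c m n k : ℕ, 0 < a ∧ 0 < b ∧ 0 < c ∧ 2 ≤ m ∧ 2 ≤ n ∧ 2 ≤ k ∧
    a ^ m + b ^ n = c ^ k ∧ c ^ k ≤ X ∧ t = (a ^ m, b ^ n, c ^ k) ∧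
    ((a : ℝ) ≤ Y ∨ (b : ℝ) ≤ Y ∨ (c : ℝ) ≤ Y)}

theorem result : ∀ ε : ℝ, 0 < ε → ∃ δ : ℝ, 0 < δ ∧ ∃ X₀ : ℕ, ∀ X : ℕ, X₀ ≤ X →
    (SmallBase X ((X : ℝ) ^ δ)).Finite ∧
      ((SmallBase X ((X : ℝ) ^ δ)).ncard : ℝ) ≤ (X : ℝ) ^ ε := by
  intro ε hε
  obtain ⟨δ, hδ, X₀, hX₀⟩ := Pool.Agent.W232.FC.sparse ε hε
  refine ⟨δ, hδ, X₀, fun X hX => ?_⟩
  have h := hX₀ X hX
  have heq : SmallBase X ((X : ℝ) ^ δ) = Pool.Agent.W232.FC.Sol X ((X : ℝ) ^ δ) := by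
    ext t
    constructor
    · rintro ⟨a, b, c, m, n, k, ha, hb, hc, hm, hn, hk, e, hX, ht, hor⟩
      refine ⟨?_, ?_, a, b, c, m, n, k, ha, hb, hc, hm, hn, hk, ht, hor⟩
      · rw [ht]; exact e
      · rw [ht]; exact hX
    · rintro ⟨e, hX, a, b, c, m, n, k, ha, hb, hc, hm, hn, hk, ht, hor⟩
      refine ⟨a, b, c, m, n, k, ha, hb, hc, hm, hn, hk, ?_, ?_, ht, hor⟩
      · rw [ht] at e; exact e
      · rw [ht] at hX; exact hX
  rw [heq]
  exact ⟨Pool.Agent.W232.FC.Sol_finite X _, h⟩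

end Pool.Agent.Results.MP_2738db_nt.SmallBaseSolutions
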